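import Pool.Agent.Helper7.OV.Goals2

/-!
# Project OV (MP_57df85_nt): packet EQG, the equations imply the conditions
-/

set_option autoImplicit false

open Finset

namespace Pool.Agent.Helper71.OV.EQG

open Pool.Agent.Helper7.OV

theorem cf_supp {m b : ℕ} {F : P2} (hF : DL m b F) {k l : ℤ} (h : cf F k l ≠ 0) :
    0 ≤ k ∧ 0 ≤ l ∧ k ≤ m ∧ l ≤ b := by
  unfold cf at h
  by_cases h0 : 0 ≤ k ∧ 0 ≤ l
  · rw [if_pos h0] at h
    have h1 : co F k.toNat l.toNat ≠ 0 := fun h1 ↦ h (by rw [h1, Int.cast_zero])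
    refine ⟨h0.1, h0.2, ?_, ?_⟩
    · by_contra hk
      refine h1 (Polynomial.coeff_eq_zero_of_natDegree_lt ?_)
      have := hF.2 l.toNat
      omega
    · by_contra hl
      refine h1 ?_
      unfold co
      rw [Polynomial.coeff_eq_zero_of_natDegree_lt (p := F) (by have := hF.1; omega),
        Polynomial.coeff_zero]
  · rw [if_neg h0] at h
    exact (h rfl).elim

theorem cf_co {F : P2} {k l : ℤ} (h : cf F k l ≠ 0) : co F k.toNat l.toNat ≠ 0 := by
  unfold cf at h
  by_cases h0 : 0 ≤ k ∧ 0 ≤ l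
  · rw [if_pos h0] at h
    exact fun h1 ↦ h (by rw [h1, Int.cast_zero])
  · rw [if_neg h0] at h
    exact (h rfl).elim

theorem act_supp {m b : ℕ} {F : P2} (hF : DL m b F) {M : Ser} {k l : ℤ} (h : act F M k l ≠ 0) :
    ∃ i j : ℕ, i ≤ m ∧ j ≤ b ∧ co F i j ≠ 0 ∧ M (k - i) (l - j) ≠ 0 := by
  unfold act at h
  obtain ⟨j, hj, h1⟩ := exists_ne_zero_of_sum_ne_zero h
  obtain ⟨i, hi, h2⟩ := exists_ne_zero_of_sum_ne_zero h1
  rw [mem_range] at hi hj
  refine ⟨i, j, ?_, ?_, ?_, right_ne_zero_of_mul h2⟩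
  · have := hF.2 j
    omega
  · have := hF.1
    omega
  · intro h3
    rw [h3, Int.cast_zero, zero_mul] at h2
    exact h2 rfl

theorem fq_supp {k l : ℤ} (h : fq k l ≠ 0) : k ≤ 0 ∧ 0 ≤ k + l := by
  unfold fq at h
  by_contra h0
  rw [if_neg h0] at h
  exact h rfl

theorem fp_supp {k l : ℤ} (h : fp k l ≠ 0) : l ≤ 0 ∧ 0 ≤ k + l := by
  unfold fp at h
  by_contra h0
  rw [if_neg h0] at h
  exact h rfl

theorem fi_supp {k l : ℤ} (h : fi k l ≠ 0) : k ≤ 0 ∧ l ≤ 0 := by
  unfold fi at h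
  by_contra h0
  rw [if_neg h0] at h
  exact h rfl

theorem t : S_EQG := by
  intro s t m b d S a ht hts hS hD e1 e2 e3 e4 e5 e6
  refine ⟨?_, ?_, ?_, ?_, ?_, ?_, ?_⟩
  · intro k l hl
    have hl' : l < 2 * (t : ℤ) := by linarith
    by_cases h1 : 0 ≤ l ∧ min 0 (max (2 * (t : ℤ) - s) 0 - l) ≤ k ∧ k ≤ m
    · exact e1 k l h1.1 hl' h1.2.1 h1.2.2
    · have hA : cf (a 0) k l = 0 := by
        by_contra hc
        obtain ⟨c1, c2, c3, c4⟩ := cf_supp (hD 0) hc
        exact h1 ⟨c2, (min_le_left _ _).trans c1, c3⟩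
      have hB : act (a 1) fq k l = 0 := by
        by_contra hc
        obtain ⟨i, j, hi, hj, hco, hf⟩ := act_supp (hD 1) hc
        obtain ⟨f1, f2⟩ := fq_supp hf
        have hi2 : 2 * (t : ℤ) - s ≤ i := by
          by_contra hlt
          exact hco (e5 i j (not_le.1 hlt))
        refine h1 ⟨by omega, (min_le_right _ _).trans ?_, by omega⟩
        rcases max_cases (2 * (t : ℤ) - s) 0 with h | h <;> omega
      simp only [hA, hB, add_zero]
  · intro k l hl
    by_contra hc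
    obtain ⟨c1, c2, -, -⟩ := cf_supp (hD 2) hc
    exact cf_co hc (e6 _ _ (by omega))
  · intro k l hk
    have hk' : k < 2 * (t : ℤ) := by linarith
    by_cases h1 : 0 ≤ k ∧ min 0 ((t : ℤ) - k) ≤ l ∧ l ≤ b
    · exact e2 k l h1.1 hk' h1.2.1 h1.2.2
    · have hA : cf (a 0) k l = 0 := by
        by_contra hc
        obtain ⟨c1, c2, c3, c4⟩ := cf_supp (hD 0) hc
        exact h1 ⟨c1, (min_le_left _ _).trans c2, c4⟩
      have hB : act (a 2) fp k l = 0 := by
        by_contra hc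
        obtain ⟨i, j, hi, hj, hco, hf⟩ := act_supp (hD 2) hc
        obtain ⟨f1, f2⟩ := fp_supp hf
        have hj2 : t ≤ j := by
          by_contra hlt
          exact hco (e6 i j (not_le.1 hlt))
        exact h1 ⟨by omega, (min_le_right _ _).trans (by omega), by omega⟩
      simp only [hA, hB, add_zero]
  · intro k l hk
    by_contra hc
    obtain ⟨c1, c2, -, -⟩ := cf_supp (hD 1) hc
    exact cf_co hc (e5 _ _ (by omega))
  · intro k l hk
    by_contra hc
    obtain ⟨c1, c2, c3, c4⟩ := cf_supp (hD 0) hc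
    exact hc (e4 k l c3 c4 (by rw [hS] at hk; linarith))
  · intro k l hk
    by_cases h1 : k ≤ m ∧ l ≤ b
    · exact e3 k l h1.1 h1.2 (by rw [hS] at hk; linarith)
    · have hA : cf (a 2) k l = 0 := by
        by_contra hc
        obtain ⟨c1, c2, c3, c4⟩ := cf_supp (hD 2) hc
        exact h1 ⟨c3, c4⟩
      have hB : act (a 1) fi k l = 0 := by
        by_contra hc
        obtain ⟨i, j, hi, hj, hco, hf⟩ := act_supp (hD 1) hc
        obtain ⟨f1, f2⟩ := fi_supp hf
        exact h1 ⟨by omega, by omega⟩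
      simp only [hA, hB, mul_zero, add_zero]
  · intro k l hk
    by_contra hc
    obtain ⟨c1, c2, c3, c4⟩ := cf_supp (hD 1) hc
    rw [hS] at hk
    have h1 : (k : ℤ) * t ≤ m * t := mul_le_mul_of_nonneg_right c3 (by positivity)
    have h2 : (l : ℤ) * s ≤ b * s := mul_le_mul_of_nonneg_right c4 (by positivity)
    linarith

end Pool.Agent.Helper71.OV.EQG
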